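import Mathlib
import Pool.Agent.MP_fd2cd0_lc.RegE

namespace Pool.Agent.Results.MP_fd2cd0_lc.RegularConstraints

open Pool.Agent.MP_fd2cd0_lc

/-- A word equation `U = V` with regular constraints `σ X ∈ L X` that has infinitely many solutions
(counted on the variables that occur in it) has solutions, satisfying the same constraints, of
arbitrarily large exponent of periodicity. -/
theorem result {A Ω : Type} [Fintype A] [Fintype Ω] (U V : List (A ⊕ Ω)) (_hU : U ≠ [])
    (_hV : V ≠ []) (L : Ω → Language A) (hL : ∀ X, (L X).IsRegular)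
    (hinf : ((fun (σ : Ω → List A) (X : {X : Ω // Sum.inr X ∈ U ++ V}) => σ X.1) ''
      {σ | IsSol U V σ ∧ ∀ X, σ X ∈ L X}).Infinite) (n : ℕ) :
    ∃ σ : Ω → List A, IsSol U V σ ∧ (∀ X, σ X ∈ L X) ∧ ∃ X : Ω, Sum.inr X ∈ U ++ V ∧
      ∃ w : List A, w ≠ [] ∧ (List.replicate n w).flatten <:+: σ X :=
  main_reg U V L hL hinf n

/-- Q1 as posed is the case in which every constraint is the language of all words. -/
theorem q1 {A Ω : Type} [Fintype A] [Fintype Ω] (U V : List (A ⊕ Ω)) (hU : U ≠ [])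
    (hV : V ≠ [])
    (hinf : ((fun (σ : Ω → List A) (X : {X : Ω // Sum.inr X ∈ U ++ V}) => σ X.1) ''
      {σ | IsSol U V σ}).Infinite) (n : ℕ) :
    ∃ σ : Ω → List A, IsSol U V σ ∧ ∃ X : Ω, Sum.inr X ∈ U ++ V ∧
      ∃ w : List A, w ≠ [] ∧ (List.replicate n w).flatten <:+: σ X := by
  obtain ⟨σ, h1, _, h2⟩ := result U V hU hV (fun _ => (Set.univ : Set (List A)))
    (fun _ => ⟨Unit, inferInstance, ⟨fun _ _ => (), (), Set.univ⟩, rfl⟩)
    (hinf.mono (Set.image_mono (fun _ h => ⟨h, fun _ => trivial⟩))) n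
  exact ⟨σ, h1, h2⟩

end Pool.Agent.Results.MP_fd2cd0_lc.RegularConstraints
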